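import Pool.Agent.Lib.MP_5bb885_an.T34AE

namespace Pool.Agent.Results.MP_5bb885_an.AllTonelliAE

open Pool.Agent.Lib.MP_5bb885_an.Gen UpperHalfPlane MeasureTheory

open scoped MatrixGroups

theorem result (Γ : Type) [Group Γ] [MulAction Γ ℍ] [ProperlyDiscontinuousSMul Γ ℍ]
    [CompactSpace (MulAction.orbitRel.Quotient Γ ℍ)]
    (hfree : ∀ (γ : Γ) (z : ℍ), γ • z = z → γ = 1)
    (hmob : ∀ γ : Γ, ∃ g : GL (Fin 2) ℝ, ∀ z : ℍ, γ • z = g • z)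
    (L : ℂ × ℂ → ℝ) (hL : Tonelli Γ L)
    (hlip : ∀ᵐ p : ℂ × ℂ ∂volume, ∀ f, Pot Γ f → ∀ (γ : Γ) (x : ℝ → ℍ) (T : ℝ),
      EL (addP L f) x → 0 < T → (∀ t, x (t + T) = γ • x t) → jet x 0 = p →
        (∃ g : SL(2, ℝ), ∀ z : ℍ, γ • z = g • z) ∨
          ∃ t K, ∃ s ∈ nhds (jet x t), LipschitzOnWith K (D2 L) s) :
    ∃ b : ℕ, Nonempty ((Fin b → ℝ) ≃ₗ[ℝ] Coh Γ) ∧ ∃ O : ℕ → Set (ℂ → ℝ),
      (∀ n, OpenDense Γ (O n)) ∧ ∀ f, Pot Γ f → (∀ n, f ∈ O n) →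
        ∀ e : (Fin b → ℝ) ≃ₗ[ℝ] Coh Γ, ∀ᵐ t ∂volume, Good Γ (addP L f) (e t : Γ → ℝ) := by
  refine main_ae (deck_of hfree hmob) hL (measure_mono_null ?_ (ae_iff.1 hlip))
  rintro p ⟨f, γ, x, T, hf, h1, h2, h3, h4, h5⟩ h
  obtain ⟨t, K, s, hs, hK⟩ := (h f hf γ x T h1 h2.1 h2.2 h5.symm).resolve_left h3
  exact h4 t s hs K hK

end Pool.Agent.Results.MP_5bb885_an.AllTonelliAE
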