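import Pool.Agent.FS.OneOrbit.Main

namespace Pool.Agent.Results.MP_5bb885_an.OneOrbit

open Pool.Agent.Lib.MP_5bb885_an.Gen UpperHalfPlane MeasureTheory

open scoped MatrixGroups

theorem result (Γ : Type) [Group Γ] [MulAction Γ ℍ] [ProperlyDiscontinuousSMul Γ ℍ]
    [CompactSpace (MulAction.orbitRel.Quotient Γ ℍ)]
    (hfree : ∀ (γ : Γ) (z : ℍ), γ • z = z → γ = 1)
    (hmob : ∀ γ : Γ, ∃ g : GL (Fin 2) ℝ, ∀ z : ℍ, γ • z = g • z)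
    (L : ℂ × ℂ → ℝ) (hL : Tonelli Γ L) :
    ∃ b : ℕ, Nonempty ((Fin b → ℝ) ≃ₗ[ℝ] Coh Γ) ∧ ∃ O : ℕ → Set (ℂ → ℝ),
      (∀ n, OpenDense Γ (O n)) ∧ ∀ f, Pot Γ f → (∀ n, f ∈ O n) →
        ∀ e : (Fin b → ℝ) ≃ₗ[ℝ] Coh Γ, ∀ᵐ t ∂volume, ∀ U : ℍ → ℝ,
          (∀ (γ : Γ) (z : ℍ), U (γ • z) = U z + (e t : Γ → ℝ) γ) →
          ∃ x₀ : ℝ → ℍ, EL (addP L f) x₀ ∧
            (HypPer Γ (addP L f) x₀ ∨ HypEq (addP L f) x₀ ∨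
              ∃ (γ : Γ) (T : ℝ), 0 < T ∧ (∀ s, x₀ (s + T) = γ • x₀ s) ∧
                ¬∃ g : SL(2, ℝ), ∀ z : ℍ, γ • z = g • z) ∧
            ∀ x, Static Γ (addP L f) U x ↔ ∃ (γ : Γ) (s : ℝ), ∀ r, x r = γ • x₀ (r + s) :=
  Pool.Agent.FS.OneOrbit.main (deck_of hfree hmob) hL

end Pool.Agent.Results.MP_5bb885_an.OneOrbit
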